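import Pool.Agent.Lib.MP_9ad789_co.Real
import Pool.Agent.Lib.MP_9ad789_co.UpC
import Pool.Agent.Lib.MP_9ad789_co.Low
import Pool.Agent.Lib.MP_9ad789_co.Example

/-!
# MP_9ad789_co : the vertex complexity of OPVRs of 3-connected 1-plane graphs

`4` is the least `k` such that every 3-connected 1-plane graph has an embedding preserving
ortho-polygon visibility representation in which every polygon has at most `k` reflex corners;
both if edges may end at corners of the polygons and if they have to end at different inner points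
of sides.
-/

namespace Pool.Agent.Results.MP_9ad789_co.KStarEqFour

open Pool.Agent.Lib.MP_9ad789_co

theorem strict_four {V : Type} [Fintype V] [DecidableEq V] (G : SimpleGraph V)
    [DecidableRel G.Adj] (E : OnePlane G) (h3 : ThreeConnected G) : HasStrictOPVR E 4 := by
  obtain ⟨s, hv, hf, h4⟩ := exists_s E h3
  obtain ⟨Γ, hΓ, hS, hr⟩ := realize E h3 s hv hf
  refine ⟨Γ, hΓ, hS, fun v => ?_⟩
  have := h4 v
  rw [← hr v] at this
  exact_mod_cast this

theorem hasOPVR_of_strict {V : Type} [Fintype V] [DecidableEq V] {G : SimpleGraph V}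
    [DecidableRel G.Adj] {E : OnePlane G} {k : ℕ} (h : HasStrictOPVR E k) : HasOPVR E k := by
  obtain ⟨Γ, hΓ, -, hr⟩ := h
  exact ⟨Γ, hΓ, hr⟩

theorem four_le {k : ℕ} (hk : ∀ (V : Type) [Fintype V] [DecidableEq V] (G : SimpleGraph V)
    [DecidableRel G.Adj] (E : OnePlane G), ThreeConnected G → HasOPVR E k) : 4 ≤ k := by
  by_contra hlt
  obtain ⟨V, _, _, G, _, E, h3, hno⟩ := exists_example
  obtain ⟨Γ, hΓ, hr⟩ := hk V G E h3
  obtain ⟨h1, h2, h3'⟩ := turns_of_valid Γ hΓ
  refine hno ⟨Γ.turns, h1, h2, fun v => (h3' v).trans ?_⟩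
  have := hr v
  omega

theorem result :
    IsLeast {k : ℕ | ∀ (V : Type) [Fintype V] [DecidableEq V] (G : SimpleGraph V)
      [DecidableRel G.Adj] (E : OnePlane G), ThreeConnected G → HasOPVR E k} 4 ∧
    IsLeast {k : ℕ | ∀ (V : Type) [Fintype V] [DecidableEq V] (G : SimpleGraph V)
      [DecidableRel G.Adj] (E : OnePlane G), ThreeConnected G → HasStrictOPVR E k} 4 := by
  refine ⟨⟨fun V _ _ G _ E h3 => hasOPVR_of_strict (strict_four G E h3), fun k hk => four_le hk⟩,
    ⟨fun V _ _ G _ E h3 => strict_four G E h3, fun k hk => four_le fun V _ _ G _ E h3 => ?_⟩⟩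
  exact hasOPVR_of_strict (hk V G E h3)

end Pool.Agent.Results.MP_9ad789_co.KStarEqFour
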